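import Mathlib

/-!
# Protocols, external information and zero-error communication

Two-party protocols with private and public randomness, possibly of unbounded length, their
transcripts, zero-error computation, external information cost and expected communication.
-/

set_option autoImplicit false

open scoped ENNReal

namespace Pool.Agent.N608.EI

/-- What a protocol does at a given moment. -/
inductive Step (X Y O : Type) : Type
  /-- the protocol stops with output `o` -/
  | stop (o : O)
  /-- Alice, whose input is `x`, sends one bit, equal to `true` with probability `p x` -/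
  | alice (p : X → unitInterval)
  /-- Bob, whose input is `y`, sends one bit, equal to `true` with probability `q y` -/
  | bob (q : Y → unitInterval)
  /-- a public coin is tossed, which shows `true` with probability `r` -/
  | coin (r : unitInterval)

/-- The probability, on the input `(x, y)`, that the bit seen in a step is `b`. -/
noncomputable def Step.prob {X Y O : Type} : Step X Y O → X → Y → Bool → ℝ
  | .stop _, _, _, _ => 0
  | .alice p, x, _, b => if b then (p x : ℝ) else 1 - (p x : ℝ)
  | .bob q, _, y, b => if b then (q y : ℝ) else 1 - (q y : ℝ)
  | .coin r, _, _, b => if b then (r : ℝ) else 1 - (r : ℝ)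

/-- The number of bits of communication in a step (public coins are free). -/
def Step.cost {X Y O : Type} : Step X Y O → ℕ
  | .stop _ => 0
  | .alice _ => 1
  | .bob _ => 1
  | .coin _ => 0

/-- A two-party protocol: to every history (the list of all bits seen so far, messages and public
coins, in their order) it assigns the next step. It may be of unbounded length. -/
def Protocol (X Y O : Type) : Type := List Bool → Step X Y O

/-- `reach P x y h`: the probability that, on the input `(x, y)`, the first bits seen in the
protocol `P` are the bits of `h`. -/
noncomputable def reach {X Y O : Type} : Protocol X Y O → X → Y → List Bool → ℝ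
  | _, _, _, [] => 1
  | P, x, y, b :: h => (P []).prob x y b * reach (fun t => P (b :: t)) x y h

/-- The number of bits that the players sent in the history `h`. -/
def bits {X Y O : Type} : Protocol X Y O → List Bool → ℕ
  | _, [] => 0
  | P, b :: h => (P []).cost + bits (fun t => P (b :: t)) h

/-- `tprob P x y t`: the probability that, on the input `(x, y)`, the protocol stops and its
transcript (the list of all bits seen, including the public coins) is `t`. -/
noncomputable def tprob {X Y O : Type} (P : Protocol X Y O) (x : X) (y : Y) (t : List Bool) : ℝ :=
  match P t with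
  | .stop _ => reach P x y t
  | _ => 0

/-- `P` computes `f` with zero error: on every input it stops with probability one, and every
transcript of positive probability comes with the correct output. -/
def ZeroError {X Y O : Type} (P : Protocol X Y O) (f : X → Y → O) : Prop :=
  ∀ x y, (∑' t : List Bool, ENNReal.ofReal (tprob P x y t)) = 1 ∧
    ∀ t o, P t = .stop o → 0 < tprob P x y t → o = f x y

/-- The protocol `P` is of bounded length: it has stopped after every history of at least `N` bits,
for some fixed `N`. -/
def Bounded {X Y O : Type} (P : Protocol X Y O) : Prop :=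
  ∃ N : ℕ, ∀ h : List Bool, N ≤ h.length → ∃ o, P h = .stop o

/-- The external information cost `I(Π; XY)` in bits, for the inputs `(X, Y)` with distribution
`μ`: the sum over all transcripts `t` of `∑_{x,y} μ(x,y) P(t|x,y) log₂ (P(t|x,y) / P(t))`, where
`P(t) = ∑_{x,y} μ(x,y) P(t|x,y)` (this inner sum is `P(t)` times a divergence, so nonnegative). -/
noncomputable def extInfo {X Y O : Type} [Fintype X] [Fintype Y] (P : Protocol X Y O)
    (μ : X → Y → ℝ) : ℝ≥0∞ :=
  ∑' t : List Bool, ENNReal.ofReal (∑ x, ∑ y, μ x y * tprob P x y t *
    Real.logb 2 (tprob P x y t / ∑ x', ∑ y', μ x' y' * tprob P x' y' t))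

/-- The expected number of bits exchanged, for the inputs with distribution `μ`. -/
noncomputable def expCost {X Y O : Type} [Fintype X] [Fintype Y] (P : Protocol X Y O)
    (μ : X → Y → ℝ) : ℝ≥0∞ :=
  ∑ x, ∑ y, ENNReal.ofReal (μ x y) *
    ∑' t : List Bool, ENNReal.ofReal (tprob P x y t) * (bits P t : ℝ≥0∞)

/-- Zero-error external information complexity `IC^ext(f, 0, μ)`. -/
noncomputable def ICext {X Y O : Type} [Fintype X] [Fintype Y] (f : X → Y → O)
    (μ : X → Y → ℝ) : ℝ≥0∞ :=
  ⨅ (P : Protocol X Y O) (_ : ZeroError P f), extInfo P μ

/-- Zero-error expected communication complexity of `f` under `μ`. -/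
noncomputable def CC {X Y O : Type} [Fintype X] [Fintype Y] (f : X → Y → O)
    (μ : X → Y → ℝ) : ℝ≥0∞ :=
  ⨅ (P : Protocol X Y O) (_ : ZeroError P f), expCost P μ

/-- The task `f^n` of computing `f` on `n` coordinates. -/
def powFun {X Y O : Type} (f : X → Y → O) (n : ℕ) (x : Fin n → X) (y : Fin n → Y) : Fin n → O :=
  fun i => f (x i) (y i)

/-- The product distribution `μ^n`. -/
def powDist {X Y : Type} (μ : X → Y → ℝ) (n : ℕ) (x : Fin n → X) (y : Fin n → Y) : ℝ :=
  ∏ i, μ (x i) (y i)

end Pool.Agent.N608.EI
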