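import Pool.Agent.N608.EI.Upper

/-!
# The counterexample: external information exceeds the amortized zero-error communication
-/

set_option autoImplicit false

open scoped ENNReal
open Filter Topology

namespace Pool.Agent.N608.EI

theorem DTree.bounded {X Y O : Type} (T : DTree X Y O) : Bounded T.toP := by
  induction T with
  | leaf o => exact ⟨0, fun h _ => ⟨o, rfl⟩⟩
  | alice f c ih =>
    obtain ⟨N0, h0⟩ := ih false
    obtain ⟨N1, h1⟩ := ih true
    refine ⟨max N0 N1 + 1, fun h hh => ?_⟩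
    cases h with
    | nil => simp at hh
    | cons b h =>
      simp only [List.length_cons, add_le_add_iff_right] at hh
      cases b with
      | false => exact h0 h ((le_max_left _ _).trans hh)
      | true => exact h1 h ((le_max_right _ _).trans hh)
  | bob f c ih =>
    obtain ⟨N0, h0⟩ := ih false
    obtain ⟨N1, h1⟩ := ih true
    refine ⟨max N0 N1 + 1, fun h hh => ?_⟩
    cases h with
    | nil => simp at hh
    | cons b h =>
      simp only [List.length_cons, add_le_add_iff_right] at hh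
      cases b with
      | false => exact h0 h ((le_max_left _ _).trans hh)
      | true => exact h1 h ((le_max_right _ _).trans hh)

theorem Good.protocol {X Y O : Type} [Fintype X] [Fintype Y] {f : X → Y → O} {μ : X → Y → ℝ}
    (hμ : ∀ a b, 0 ≤ μ a b) {n : ℕ} {c : ℝ} (h : Good f μ n c) :
    ∃ P : Protocol (Fin n → X) (Fin n → Y) (Fin n → O), ZeroError P (powFun f n) ∧ Bounded P ∧
      expCost P (powDist μ n) ≤ ENNReal.ofReal c := by
  obtain ⟨T, h1, h2⟩ := h
  refine ⟨T.toP, T.zeroError_toP _ h1, T.bounded, ?_⟩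
  rw [T.expCost_toP _ (powDist_nonneg hμ n)]
  exact ENNReal.ofReal_le_ofReal h2

theorem main : ∃ m : ℕ, 1 ≤ m ∧ ∃ (F : (Fin m → Bool) → (Fin m → Bool) → Bool)
    (μ : (Fin m → Bool) → (Fin m → Bool) → ℝ),
    (∀ x y, 0 ≤ μ x y) ∧ ∑ x, ∑ y, μ x y = 1 ∧
    ∃ c : ℝ≥0∞, c < ICext F μ ∧
      (∀ᶠ n : ℕ in atTop, ∃ P : Protocol (Fin n → Fin m → Bool) (Fin n → Fin m → Bool)
        (Fin n → Bool), ZeroError P (powFun F n) ∧ Bounded P ∧
          expCost P (powDist μ n) ≤ c * n) := by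
  set η : ℝ := 1 / 3204 with hη
  have h0 : (0 : ℝ) ≤ η := by rw [hη]; norm_num
  have h1 : η ≤ 1 := by rw [hη]; norm_num
  have hk : ((800 : ℕ) : ℝ) * η ≤ ((1 - η) / 2) ^ 2 := by rw [hη]; norm_num
  set cB : ℝ := 3 + (800 : ℕ) * (16 : ℕ) -
    ((800 : ℕ) - 2 * (16 : ℕ)) * ((16 : ℕ) * (η * (1 - η) ^ (16 - 1))) with hcB
  have hcB0 : 0 ≤ cB := by rw [hcB, hη]; norm_num
  have hcB1 : cB / (16 : ℕ) < 799.96 := by rw [hcB, hη]; norm_num
  obtain ⟨c1, hc1, g1⟩ := good_one 800 η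
  have gB := good_block 800 16 η h0 h1 (by norm_num)
  have hgood := fun n => Good.divMod (mu_sum 800 η) hc1 (by norm_num : 0 < 16) hcB0 gB g1 n
  refine ⟨801, by norm_num, Fk 800, mu 800 η, mu_nonneg h0 h1, mu_sum 800 η,
    ENNReal.ofReal 799.98, ?_, ?_⟩
  · have hlow : ((800 : ℕ) : ℝ≥0∞) ≤ ICext (Fk 800) (mu 800 η) :=
      le_iInf₂ (fun P hP => lower 800 η h0 h1 hk P hP)
    refine lt_of_lt_of_le ?_ hlow
    rw [← ENNReal.ofReal_natCast]
    exact (ENNReal.ofReal_lt_ofReal_iff (by norm_num)).2 (by norm_num)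
  · have hlim : ∀ᶠ n : ℕ in atTop, (16 : ℕ) * c1 ≤ (n : ℝ) * 0.02 := by
      have : Tendsto (fun n : ℕ => (n : ℝ) * 0.02) atTop atTop :=
        tendsto_natCast_atTop_atTop.atTop_mul_const (by norm_num)
      exact this.eventually_ge_atTop _
    filter_upwards [hlim] with n hn
    obtain ⟨P, hP1, hP2, hP3⟩ := (hgood n).protocol (mu_nonneg h0 h1)
    refine ⟨P, hP1, hP2, hP3.trans ?_⟩
    rw [← ENNReal.ofReal_natCast, ← ENNReal.ofReal_mul (by norm_num)]
    apply ENNReal.ofReal_le_ofReal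
    have h3 : (n : ℝ) * (cB / (16 : ℕ)) ≤ n * 799.96 :=
      mul_le_mul_of_nonneg_left hcB1.le (Nat.cast_nonneg n)
    linarith

end Pool.Agent.N608.EI
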