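import Pool.Agent.N608.EI.Defs

/-!
# The external information of the example is at least `k`
-/

set_option autoImplicit false

open scoped ENNReal

namespace Pool.Agent.N608.EI

section general

variable {X Y O : Type}

theorem Step.prob_nonneg (s : Step X Y O) (x : X) (y : Y) (b : Bool) : 0 ≤ s.prob x y b := by
  cases s with
  | stop o => simp [Step.prob]
  | alice p =>
    simp only [Step.prob]
    split_ifs
    · exact (p x).2.1
    · exact sub_nonneg.2 (p x).2.2
  | bob q =>
    simp only [Step.prob]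
    split_ifs
    · exact (q y).2.1
    · exact sub_nonneg.2 (q y).2.2
  | coin r =>
    simp only [Step.prob]
    split_ifs
    · exact r.2.1
    · exact sub_nonneg.2 r.2.2

theorem Step.prob_factor (s : Step X Y O) (b : Bool) :
    ∃ (u : X → ℝ) (v : Y → ℝ), (∀ x, 0 ≤ u x) ∧ (∀ y, 0 ≤ v y) ∧
      ∀ x y, s.prob x y b = u x * v y := by
  cases s with
  | stop o => exact ⟨fun _ => 0, fun _ => 0, fun _ => le_rfl, fun _ => le_rfl, by simp [Step.prob]⟩
  | alice p =>
    refine ⟨fun x => if b then (p x : ℝ) else 1 - (p x : ℝ), fun _ => 1, fun x => ?_,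
      fun _ => zero_le_one, fun x y => by simp [Step.prob]⟩
    dsimp only
    split_ifs
    · exact (p x).2.1
    · exact sub_nonneg.2 (p x).2.2
  | bob q =>
    refine ⟨fun _ => 1, fun y => if b then (q y : ℝ) else 1 - (q y : ℝ), fun _ => zero_le_one,
      fun y => ?_, fun x y => by simp [Step.prob]⟩
    dsimp only
    split_ifs
    · exact (q y).2.1
    · exact sub_nonneg.2 (q y).2.2
  | coin r =>
    refine ⟨fun _ => if b then (r : ℝ) else 1 - (r : ℝ), fun _ => 1, fun x => ?_,
      fun _ => zero_le_one, fun x y => by simp [Step.prob]⟩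
    dsimp only
    split_ifs
    · exact r.2.1
    · exact sub_nonneg.2 r.2.2

/-- The rectangle property. -/
theorem reach_factor (t : List Bool) : ∀ P : Protocol X Y O,
    ∃ (u : X → ℝ) (v : Y → ℝ), (∀ x, 0 ≤ u x) ∧ (∀ y, 0 ≤ v y) ∧
      ∀ x y, reach P x y t = u x * v y := by
  induction t with
  | nil =>
    intro P
    exact ⟨fun _ => 1, fun _ => 1, fun _ => zero_le_one, fun _ => zero_le_one,
      by simp [reach]⟩
  | cons b t ih =>
    intro P
    obtain ⟨u, v, hu, hv, h⟩ := ih (fun s => P (b :: s))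
    obtain ⟨u', v', hu', hv', h'⟩ := (P []).prob_factor b
    refine ⟨fun x => u' x * u x, fun y => v' y * v y, fun x => mul_nonneg (hu' x) (hu x),
      fun y => mul_nonneg (hv' y) (hv y), fun x y => ?_⟩
    rw [reach, h, h']
    ring

theorem tprob_factor (P : Protocol X Y O) (t : List Bool) :
    ∃ (u : X → ℝ) (v : Y → ℝ), (∀ x, 0 ≤ u x) ∧ (∀ y, 0 ≤ v y) ∧
      ∀ x y, tprob P x y t = u x * v y := by
  obtain ⟨u, v, hu, hv, h⟩ := reach_factor t P
  cases hs : P t with
  | stop o => exact ⟨u, v, hu, hv, fun x y => by simp only [tprob, hs]; exact h x y⟩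
  | alice p => exact ⟨fun _ => 0, fun _ => 0, fun _ => le_rfl, fun _ => le_rfl,
      fun x y => by simp only [tprob, hs]; simp⟩
  | bob p => exact ⟨fun _ => 0, fun _ => 0, fun _ => le_rfl, fun _ => le_rfl,
      fun x y => by simp only [tprob, hs]; simp⟩
  | coin p => exact ⟨fun _ => 0, fun _ => 0, fun _ => le_rfl, fun _ => le_rfl,
      fun x y => by simp only [tprob, hs]; simp⟩

end general

/-! ## The leafwise inequality -/

/-- The basic estimate of the logarithm. -/
theorem mul_log_div_ge {q p : ℝ} (hq : 0 ≤ q) (hp : 0 < p) :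
    2 * q - 2 * (Real.sqrt q * Real.sqrt p) ≤ q * Real.log (q / p) := by
  rcases hq.eq_or_lt with h | hq'
  · rw [← h]; simp
  · have hsq : 0 < Real.sqrt q := Real.sqrt_pos.2 hq'
    have hsp : 0 < Real.sqrt p := Real.sqrt_pos.2 hp
    have h1 : Real.log (Real.sqrt p / Real.sqrt q) ≤ Real.sqrt p / Real.sqrt q - 1 :=
      Real.log_le_sub_one_of_pos (by positivity)
    have h2 : Real.log (q / p) = -2 * Real.log (Real.sqrt p / Real.sqrt q) := by
      rw [Real.log_div hq'.ne' hp.ne', Real.log_div hsp.ne' hsq.ne', Real.log_sqrt hq,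
        Real.log_sqrt hp.le]
      ring
    have h3 : q = Real.sqrt q * Real.sqrt q := (Real.mul_self_sqrt hq).symm
    rw [h2]
    have h4 : q * (-2 * (Real.sqrt p / Real.sqrt q - 1)) =
        2 * q - 2 * (Real.sqrt q * Real.sqrt p) := by
      field_simp
      nlinarith [Real.mul_self_sqrt hq]
    rw [← h4]
    exact mul_le_mul_of_nonneg_left (by linarith) hq

/-- Three weights `c, c, e` with `2 c + e = 1`. -/
theorem three_point {c e q0 q1 q2 p : ℝ} (hc : 0 ≤ c) (he : 0 ≤ e) (hsum : 2 * c + e = 1)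
    (h0 : 0 ≤ q0) (h1 : 0 ≤ q1) (h2 : 0 ≤ q2) (hp : p = c * q0 + c * q1 + e * q2) :
    c ^ 2 * (Real.sqrt q0 - Real.sqrt q1) ^ 2 ≤
      c * (q0 * Real.log (q0 / p)) + c * (q1 * Real.log (q1 / p)) +
        e * (q2 * Real.log (q2 / p)) := by
  have hp0 : 0 ≤ p := by rw [hp]; positivity
  rcases hp0.eq_or_lt with h | hpos
  · -- `p = 0`
    have hcq0 : c * q0 = 0 := by nlinarith [mul_nonneg hc h0, mul_nonneg hc h1, mul_nonneg he h2]
    have hcq1 : c * q1 = 0 := by nlinarith [mul_nonneg hc h0, mul_nonneg hc h1, mul_nonneg he h2]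
    rw [← h]
    simp only [div_zero, Real.log_zero, mul_zero, add_zero]
    rcases mul_eq_zero.1 hcq0 with h' | h'
    · rw [h']; simp
    · rcases mul_eq_zero.1 hcq1 with h'' | h''
      · rw [h'']; simp
      · rw [h', h'']; simp
  · set a := Real.sqrt q0 with ha
    set b := Real.sqrt q1 with hb
    set d := Real.sqrt q2 with hd
    set s := Real.sqrt p with hs
    have hspos : 0 < s := Real.sqrt_pos.2 hpos
    have i0 := mul_log_div_ge h0 hpos
    have i1 := mul_log_div_ge h1 hpos
    have i2 := mul_log_div_ge h2 hpos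
    rw [← ha, ← hs] at i0
    rw [← hb, ← hs] at i1
    rw [← hd, ← hs] at i2
    have ea : a * a = q0 := Real.mul_self_sqrt h0
    have eb : b * b = q1 := Real.mul_self_sqrt h1
    have ed : d * d = q2 := Real.mul_self_sqrt h2
    have es : s * s = p := Real.mul_self_sqrt hpos.le
    have ha0 : 0 ≤ a := Real.sqrt_nonneg _
    have hb0 : 0 ≤ b := Real.sqrt_nonneg _
    have hd0 : 0 ≤ d := Real.sqrt_nonneg _
    set r := c * a + c * b + e * d with hr
    have hr0 : 0 ≤ r := by positivity
    -- variance identity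
    have hvar : p - r ^ 2 = c ^ 2 * (a - b) ^ 2 + c * e * (a - d) ^ 2 + c * e * (b - d) ^ 2 := by
      have he' : e = 1 - 2 * c := by linarith
      rw [hp, hr, ← ea, ← eb, ← ed, he']
      ring
    have hrs : r ≤ s := by
      have h3 : r ^ 2 ≤ s ^ 2 := by
        have : s ^ 2 = p := by rw [sq]; exact es
        rw [this]
        nlinarith [mul_nonneg (sq_nonneg c) (sq_nonneg (a - b)),
          mul_nonneg (mul_nonneg hc he) (sq_nonneg (a - d)),
          mul_nonneg (mul_nonneg hc he) (sq_nonneg (b - d))]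
      exact le_of_sq_le_sq h3 hspos.le
    have key : c ^ 2 * (a - b) ^ 2 ≤ 2 * p - 2 * (s * r) := by
      have h4 : 2 * p - 2 * (s * r) - (p - r ^ 2) = (s - r) ^ 2 := by
        rw [← es]; ring
      nlinarith [mul_nonneg (mul_nonneg hc he) (sq_nonneg (a - d)),
          mul_nonneg (mul_nonneg hc he) (sq_nonneg (b - d)), sq_nonneg (s - r)]
    have j0 := mul_le_mul_of_nonneg_left i0 hc
    have j1 := mul_le_mul_of_nonneg_left i1 hc
    have j2 := mul_le_mul_of_nonneg_left i2 he
    have e1 : c * (2 * q0 - 2 * (a * s)) + c * (2 * q1 - 2 * (b * s)) +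
        e * (2 * q2 - 2 * (d * s)) = 2 * p - 2 * (s * r) := by
      rw [hp, hr]; ring
    linarith
where
  le_of_sq_le_sq {x y : ℝ} (h : x ^ 2 ≤ y ^ 2) (hy : 0 ≤ y) : x ≤ y :=
    abs_le_of_sq_le_sq' h hy |>.2

theorem logb_two_ge {x y : ℝ} (hx : x ≤ y) (hy : 0 ≤ y) : x ≤ y / Real.log 2 := by
  have h2 : 0 < Real.log 2 := Real.log_pos one_lt_two
  have h1 : Real.log 2 ≤ 1 := by
    have := Real.log_two_lt_d9
    linarith
  rw [le_div_iff₀ h2]
  nlinarith

/-- The weights of the four values of the two first bits. -/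
noncomputable def wt (η : ℝ) : Bool → Bool → ℝ
  | false, false => (1 - η) / 2
  | true, true => (1 - η) / 2
  | false, true => η
  | true, false => 0

/-- A leaf without typical inputs carries nonnegative information. -/
theorem leaf_nonneg {Z : Type} [Fintype Z] (k : ℕ) (hZ : Fintype.card Z = 2 ^ k) (η : ℝ)
    (hη0 : 0 ≤ η) (hη1 : η ≤ 1) (q : Z → ℝ) (hq : ∀ z, 0 ≤ q z) (P : ℝ)
    (hP : P = (1 / 2 ^ k) * ∑ z, η * q z) :
    0 ≤ ∑ z, η * (q z * Real.logb 2 (q z / P)) := by
  have hM : (0 : ℝ) < 2 ^ k := by positivity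
  have hl2 : 0 < Real.log 2 := Real.log_pos one_lt_two
  have hsum0 : 0 ≤ ∑ z, η * q z := Finset.sum_nonneg (fun z _ => mul_nonneg hη0 (hq z))
  have hP0 : 0 ≤ P := by
    rw [hP]
    exact mul_nonneg (by positivity) hsum0
  rcases hP0.eq_or_lt with h | hPpos
  · -- all terms vanish
    have h1 : ∑ z, η * q z = 0 := by
      rw [← h] at hP
      rcases mul_eq_zero.1 hP.symm with h' | h'
      · exact absurd h' (by positivity)
      · exact h'
    have h2 := (Finset.sum_eq_zero_iff_of_nonneg (fun z _ => mul_nonneg hη0 (hq z))).1 h1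
    have h3 : ∀ z, η * (q z * Real.logb 2 (q z / P)) = 0 := by
      intro z
      rw [← mul_assoc, h2 z (Finset.mem_univ z), zero_mul]
    simp [h3]
  · have hterm : ∀ z, η * ((q z - P) / Real.log 2) ≤ η * (q z * Real.logb 2 (q z / P)) := by
      intro z
      apply mul_le_mul_of_nonneg_left _ hη0
      rcases (hq z).eq_or_lt with h | hqpos
      · rw [← h]
        simp only [zero_mul, zero_sub]
        exact div_nonpos_of_nonpos_of_nonneg (by linarith) hl2.le
      · rw [Real.logb, ← mul_div_assoc]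
        apply div_le_div_of_nonneg_right _ hl2.le
        have h1 : Real.log (P / q z) ≤ P / q z - 1 := Real.log_le_sub_one_of_pos (by positivity)
        have h2 : Real.log (q z / P) = - Real.log (P / q z) := by
          rw [← Real.log_inv, inv_div]
        rw [h2]
        have h3 : q z * (P / q z) = P := by field_simp
        nlinarith
    have hcard : (∑ _z : Z, P) = 2 ^ k * P := by
      rw [Finset.sum_const, Finset.card_univ, hZ, nsmul_eq_mul]
      push_cast
      ring
    have h4 : ∑ z, η * ((q z - P) / Real.log 2) = 2 ^ k * P * (1 - η) / Real.log 2 := by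
      have h5 : ∑ z, η * ((q z - P) / Real.log 2) =
          (∑ z, η * q z - η * ∑ _z : Z, P) / Real.log 2 := by
        rw [Finset.mul_sum, ← Finset.sum_sub_distrib, Finset.sum_div]
        exact Finset.sum_congr rfl (fun z _ => by ring)
      have h6 : ∑ z, η * q z = 2 ^ k * P := by rw [hP]; field_simp
      rw [h5, h6, hcard]
      ring
    calc 0 ≤ 2 ^ k * P * (1 - η) / Real.log 2 := by
          have : 0 ≤ 1 - η := by linarith
          positivity
      _ = _ := h4.symm
      _ ≤ _ := Finset.sum_le_sum (fun z _ => hterm z)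

/-- The leaf inequality for one value `z`: `q0, q1, q2, q3` are the probabilities of the leaf for
the first bits `00, 11, 01, 10`. -/
theorem leaf_point (k : ℕ) (η c : ℝ) (hη0 : 0 ≤ η) (hc0 : 0 ≤ c) (hsum : 2 * c + η = 1)
    (q0 q1 q2 q3 p P : ℝ) (n0 : 0 ≤ q0) (n1 : 0 ≤ q1) (n2 : 0 ≤ q2) (n3 : 0 ≤ q3)
    (hrect : q0 * q1 = q2 * q3) (hp : p = c * q0 + c * q1 + η * q2) (hPp : P = p / 2 ^ k) :
    k * p + c ^ 2 * (q0 + q1) ≤
        (c * (q1 * Real.logb 2 (q1 / P)) + (η * (q2 * Real.logb 2 (q2 / P)) +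
        c * (q0 * Real.logb 2 (q0 / P)))) + c ^ 2 * (q2 + q3) := by
  have hM : (0 : ℝ) < 2 ^ k := by positivity
  have hl2 : 0 < Real.log 2 := Real.log_pos one_lt_two
  have hp0 : 0 ≤ p := by rw [hp]; positivity
  -- change of the logarithm
  have hlog : ∀ w q : ℝ, 0 ≤ w → 0 ≤ q → w * q ≤ p →
      w * (q * Real.logb 2 (q / P)) = w * (q * Real.log (q / p)) / Real.log 2 + k * (w * q) := by
    intro w q hw hq hwq
    rcases (mul_nonneg hw hq).eq_or_lt with h | h
    · rcases mul_eq_zero.1 h.symm with h' | h'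
      · rw [h']; simp
      · rw [h']; simp
    · have hppos : 0 < p := lt_of_lt_of_le h hwq
      have hqpos : 0 < q := pos_of_mul_pos_right h hw
      have h5 : q / P = (q / p) * 2 ^ k := by rw [hPp]; field_simp
      have h6 : Real.logb 2 (q / P) = Real.log (q / p) / Real.log 2 + k := by
        rw [h5, Real.logb, Real.log_mul (by positivity) (by positivity), Real.log_pow, add_div]
        congr 1
        field_simp
      rw [h6]
      ring
  have hw0 : c * q0 ≤ p := by
    rw [hp]; linarith [mul_nonneg hc0 n1, mul_nonneg hη0 n2]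
  have hw1 : c * q1 ≤ p := by
    rw [hp]; linarith [mul_nonneg hc0 n0, mul_nonneg hη0 n2]
  have hw2 : η * q2 ≤ p := by
    rw [hp]; linarith [mul_nonneg hc0 n0, mul_nonneg hc0 n1]
  have l0 := hlog c q0 hc0 n0 hw0
  have l1 := hlog c q1 hc0 n1 hw1
  have l2 := hlog η q2 hη0 n2 hw2
  have main := three_point hc0 hη0 hsum n0 n1 n2 hp
  -- cut and paste
  have h5 : q0 + q1 - (q2 + q3) ≤ (Real.sqrt q0 - Real.sqrt q1) ^ 2 := by
    have e0 : Real.sqrt q0 * Real.sqrt q0 = q0 := Real.mul_self_sqrt n0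
    have e1 : Real.sqrt q1 * Real.sqrt q1 = q1 := Real.mul_self_sqrt n1
    have e2 : Real.sqrt q2 * Real.sqrt q2 = q2 := Real.mul_self_sqrt n2
    have e3 : Real.sqrt q3 * Real.sqrt q3 = q3 := Real.mul_self_sqrt n3
    have e4 : Real.sqrt q0 * Real.sqrt q1 = Real.sqrt q2 * Real.sqrt q3 := by
      rw [← Real.sqrt_mul n0, ← Real.sqrt_mul n2, hrect]
    nlinarith [sq_nonneg (Real.sqrt q2 - Real.sqrt q3)]
  have hcp : c ^ 2 * (q0 + q1 - (q2 + q3)) ≤ c ^ 2 * (Real.sqrt q0 - Real.sqrt q1) ^ 2 :=
    mul_le_mul_of_nonneg_left h5 (sq_nonneg c)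
  have hS0 : 0 ≤ c * (q0 * Real.log (q0 / p)) + c * (q1 * Real.log (q1 / p)) +
      η * (q2 * Real.log (q2 / p)) := le_trans (by positivity) main
  have hfin := logb_two_ge (hcp.trans main) hS0
  have hsumlog : c * (q1 * Real.logb 2 (q1 / P)) + (η * (q2 * Real.logb 2 (q2 / P)) +
      c * (q0 * Real.logb 2 (q0 / P))) =
      (c * (q0 * Real.log (q0 / p)) + c * (q1 * Real.log (q1 / p)) +
      η * (q2 * Real.log (q2 / p))) / Real.log 2 + k * p := by
    rw [l0, l1, l2, hp]; ring
  rw [hsumlog]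
  have e : c ^ 2 * (q0 + q1 - (q2 + q3)) = c ^ 2 * (q0 + q1) - c ^ 2 * (q2 + q3) := by ring
  rw [e] at hfin
  linarith

theorem leaf_ineq {Z : Type} [Fintype Z] (k : ℕ) (hZ : Fintype.card Z = 2 ^ k) (η : ℝ)
    (hη0 : 0 ≤ η) (hη1 : η ≤ 1) (hk : k * η ≤ ((1 - η) / 2) ^ 2)
    (α β : Bool → Z → ℝ) (hα : ∀ i z, 0 ≤ α i z) (hβ : ∀ i z, 0 ≤ β i z)
    (hF : ∀ i j z z', 0 < α i z * β j z' → z = z' ∨ (i = false ∧ j = true)) (P : ℝ)
    (hP : P = (1 / 2 ^ k) * ∑ z, ∑ i, ∑ j, wt η i j * (α i z * β j z)) :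
    (1 / 2 ^ k) * ∑ z, ∑ i, ∑ j, wt η i j * (k * (α i z * β j z)) +
      (((1 - η) / 2) ^ 2 / 2 ^ k) *
        ∑ z, (α false z * β false z + α true z * β true z) ≤
    (1 / 2 ^ k) * ∑ z, ∑ i, ∑ j, wt η i j * (α i z * β j z *
        Real.logb 2 (α i z * β j z / P)) +
      (((1 - η) / 2) ^ 2 / 2 ^ k) *
        ∑ z, (α false z * β true z + α true z * β false z) := by
  classical
  have hM : (0 : ℝ) < 2 ^ k := by positivity
  have hQ : ∀ i j z, 0 ≤ α i z * β j z := fun i j z => mul_nonneg (hα i z) (hβ j z)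
  have hc0 : 0 ≤ (1 - η) / 2 := by linarith
  have hsum : 2 * ((1 - η) / 2) + η = 1 := by ring
  by_cases htyp : ∃ z0 i, 0 < α i z0 * β i z0
  · obtain ⟨z0, i0, h0⟩ := htyp
    -- everything vanishes off `z0`
    have hz : ∀ z, z ≠ z0 → ∀ i j, α i z * β j z = 0 := by
      intro z hzz i j
      have hα0 : 0 < α i0 z0 := pos_of_mul_pos_left h0 (hβ i0 z0)
      have hβ0 : 0 < β i0 z0 := pos_of_mul_pos_right h0 (hα i0 z0)
      cases i0 with
      | false =>
        have : α i z = 0 := by
          by_contra hne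
          have hpos : 0 < α i z := lt_of_le_of_ne (hα i z) (Ne.symm hne)
          rcases hF i false z z0 (mul_pos hpos hβ0) with h | ⟨_, h⟩
          · exact hzz h
          · exact absurd h (by decide)
        rw [this, zero_mul]
      | true =>
        have : β j z = 0 := by
          by_contra hne
          have hpos : 0 < β j z := lt_of_le_of_ne (hβ j z) (Ne.symm hne)
          rcases hF true j z0 z (mul_pos hα0 hpos) with h | ⟨h, _⟩
          · exact hzz h.symm
          · exact absurd h (by decide)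
        rw [this, mul_zero]
    have hred : ∀ g : Z → ℝ, (∀ z, z ≠ z0 → g z = 0) → ∑ z, g z = g z0 := by
      intro g hg
      exact Finset.sum_eq_single z0 (fun z _ hne => hg z hne) (fun h => absurd (Finset.mem_univ _) h)
    rw [hred _ (fun z hne => by simp [hz z hne])] at hP
    rw [hred _ (fun z hne => by simp [hz z hne]), hred _ (fun z hne => by simp [hz z hne]),
      hred _ (fun z hne => by simp [hz z hne]), hred _ (fun z hne => by simp [hz z hne])]
    simp only [Fintype.sum_bool, wt, zero_mul, zero_add] at hP ⊢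
    have hrect : α false z0 * β false z0 * (α true z0 * β true z0) =
      α false z0 * β true z0 * (α true z0 * β false z0) := by ring
    have key := leaf_point k η ((1 - η) / 2) hη0 hc0 hsum _ _ _ _ _ P
      (hQ false false z0) (hQ true true z0) (hQ false true z0) (hQ true false z0) hrect rfl
      (by rw [hP]; ring)
    have hdiv := div_le_div_of_nonneg_right key hM.le
    have e1 : ∀ a b c d : ℝ, (1 / 2 ^ k) * a + b / 2 ^ k * c = (a + b * c) / 2 ^ k := by
      intro a b c d; ring
    rw [e1 _ _ _ 0, e1 _ _ _ 0]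
    refine le_trans (le_of_eq ?_) (hdiv.trans (le_of_eq ?_))
    · congr 1; ring
    · rw [add_zero]
  · push Not at htyp
    have hz0 : ∀ i z, α i z * β i z = 0 := fun i z => le_antisymm (htyp z i) (hQ i i z)
    simp only [Fintype.sum_bool, wt, zero_mul, zero_add, hz0, mul_zero, add_zero,
      Finset.sum_const_zero] at hP ⊢
    have hnn := leaf_nonneg k hZ η hη0 hη1 (fun z => α false z * β true z)
      (fun z => hQ false true z) P hP
    have h1 : (1 / 2 ^ k : ℝ) * ∑ z, η * (k * (α false z * β true z)) ≤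
        ((1 - η) / 2) ^ 2 / 2 ^ k * ∑ z, (α false z * β true z + α true z * β false z) := by
      have e1 : (1 / 2 ^ k : ℝ) * ∑ z, η * (k * (α false z * β true z)) =
          (k * η) / 2 ^ k * ∑ z, α false z * β true z := by
        rw [Finset.mul_sum, Finset.mul_sum]
        exact Finset.sum_congr rfl (fun z _ => by ring)
      rw [e1]
      apply mul_le_mul (div_le_div_of_nonneg_right hk hM.le)
        (Finset.sum_le_sum (fun z _ => by linarith [hQ true false z]))
        (Finset.sum_nonneg (fun z _ => hQ false true z)) (by positivity)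
    have h2 : 0 ≤ (1 / 2 ^ k : ℝ) * ∑ z, η * (α false z * β true z *
        Real.logb 2 (α false z * β true z / P)) := mul_nonneg (by positivity) hnn
    linarith

end Pool.Agent.N608.EI
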