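import Pool.Agent.N608.EI.Lower

/-!
# Every zero-error protocol for the example has external information at least `k`
-/

set_option autoImplicit false

open scoped ENNReal

namespace Pool.Agent.N608.EI

/-- The function of the example: the inputs are `x = (x₀, u)` and `y = (y₀, v)` with
`u, v ∈ {0,1}^k`; its value is `1` if and only if `u = v` or `(x₀, y₀) = (0, 1)`. -/
def Fk (k : ℕ) (x y : Fin (k + 1) → Bool) : Bool :=
  decide (Fin.tail x = Fin.tail y) || (!x 0 && y 0)

/-- The distribution of the example: `u = v` is uniform and the pair of the first bits has the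
distribution `wt η`. -/
noncomputable def mu (k : ℕ) (η : ℝ) (x y : Fin (k + 1) → Bool) : ℝ :=
  if Fin.tail x = Fin.tail y then wt η (x 0) (y 0) / 2 ^ k else 0

theorem sum_cons {M : Type} [AddCommMonoid M] (k : ℕ) (f : (Fin (k + 1) → Bool) → M) :
    ∑ x, f x = ∑ z : Fin k → Bool, ∑ i : Bool, f (Fin.cons i z) := by
  rw [← (Fin.consEquiv (fun _ : Fin (k + 1) => Bool)).sum_comp, Fintype.sum_prod_type_right]
  rfl

theorem sum_mu (k : ℕ) (η : ℝ) (g : (Fin (k + 1) → Bool) → (Fin (k + 1) → Bool) → ℝ) :
    ∑ x, ∑ y, mu k η x y * g x y =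
      (1 / 2 ^ k) * ∑ z : Fin k → Bool, ∑ i, ∑ j, wt η i j * g (Fin.cons i z) (Fin.cons j z) := by
  rw [sum_cons, Finset.mul_sum]
  refine Finset.sum_congr rfl (fun z _ => ?_)
  rw [Finset.mul_sum]
  refine Finset.sum_congr rfl (fun i _ => ?_)
  rw [sum_cons, Finset.sum_eq_single z]
  · rw [Finset.mul_sum]
    refine Finset.sum_congr rfl (fun j _ => ?_)
    simp only [mu, Fin.tail_cons, Fin.cons_zero, if_true]
    ring
  · intro z' _ hne
    refine Finset.sum_eq_zero (fun j _ => ?_)
    simp only [mu, Fin.tail_cons]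
    rw [if_neg (fun h => hne h.symm), zero_mul]
  · intro h
    exact absurd (Finset.mem_univ _) h

theorem wt_nonneg {η : ℝ} (h0 : 0 ≤ η) (h1 : η ≤ 1) (i j : Bool) : 0 ≤ wt η i j := by
  cases i <;> cases j <;> simp only [wt] <;> linarith

theorem mu_nonneg {k : ℕ} {η : ℝ} (h0 : 0 ≤ η) (h1 : η ≤ 1) (x y : Fin (k + 1) → Bool) :
    0 ≤ mu k η x y := by
  unfold mu
  split_ifs
  · exact div_nonneg (wt_nonneg h0 h1 _ _) (by positivity)
  · exact le_rfl

theorem mu_sum (k : ℕ) (η : ℝ) : ∑ x, ∑ y, mu k η x y = 1 := by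
  have h := sum_mu k η (fun _ _ => 1)
  simp only [mul_one] at h
  rw [h]
  simp only [Fintype.sum_bool, wt, Finset.sum_const, Finset.card_univ, Fintype.card_fun,
    Fintype.card_bool, Fintype.card_fin, nsmul_eq_mul]
  push_cast
  field_simp
  ring

variable {X Y O : Type}

theorem tprob_nonneg (P : Protocol X Y O) (x : X) (y : Y) (t : List Bool) :
    0 ≤ tprob P x y t := by
  obtain ⟨u, v, hu, hv, h⟩ := tprob_factor P t
  rw [h]
  exact mul_nonneg (hu x) (hv y)

/-- Linear functionals of the transcript probabilities sum to their total weight. -/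
theorem tsum_linear {P : Protocol X Y O} {f : X → Y → O} (hP : ZeroError P f) {ι : Type}
    (s : Finset ι) (w : ι → ℝ) (hw : ∀ a ∈ s, 0 ≤ w a) (x : ι → X) (y : ι → Y) :
    ∑' t, ENNReal.ofReal (∑ a ∈ s, w a * tprob P (x a) (y a) t) =
      ENNReal.ofReal (∑ a ∈ s, w a) := by
  have h1 : ∀ t, ENNReal.ofReal (∑ a ∈ s, w a * tprob P (x a) (y a) t) =
      ∑ a ∈ s, ENNReal.ofReal (w a) * ENNReal.ofReal (tprob P (x a) (y a) t) := by
    intro t
    rw [ENNReal.ofReal_sum_of_nonneg (fun a ha => mul_nonneg (hw a ha) (tprob_nonneg _ _ _ _))]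
    exact Finset.sum_congr rfl (fun a ha => ENNReal.ofReal_mul (hw a ha))
  simp_rw [h1]
  rw [Summable.tsum_finsetSum (fun _ _ => ENNReal.summable), ENNReal.ofReal_sum_of_nonneg hw]
  refine Finset.sum_congr rfl (fun a _ => ?_)
  rw [ENNReal.tsum_mul_left, (hP (x a) (y a)).1, mul_one]

theorem lower (k : ℕ) (η : ℝ) (hη0 : 0 ≤ η) (hη1 : η ≤ 1) (hk : k * η ≤ ((1 - η) / 2) ^ 2)
    (P : Protocol (Fin (k + 1) → Bool) (Fin (k + 1) → Bool) Bool) (hP : ZeroError P (Fk k)) :
    (k : ℝ≥0∞) ≤ extInfo P (mu k η) := by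
  classical
  set c : ℝ := (1 - η) / 2 with hc
  have hc0 : 0 ≤ c := by rw [hc]; linarith
  have hM : (0 : ℝ) < 2 ^ k := by positivity
  have hcardZ : Fintype.card (Fin k → Bool) = 2 ^ k := by simp
  -- the index set of the linear functionals
  let S : Finset ((Fin k → Bool) × Bool × Bool) := Finset.univ
  let X' : (Fin k → Bool) × Bool × Bool → (Fin (k + 1) → Bool) := fun a => Fin.cons a.2.1 a.1
  let Y' : (Fin k → Bool) × Bool × Bool → (Fin (k + 1) → Bool) := fun a => Fin.cons a.2.2 a.1
  let C : (Fin k → Bool) × Bool × Bool → ℝ := fun a =>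
    wt η a.2.1 a.2.2 * k / 2 ^ k + (if a.2.1 = a.2.2 then c ^ 2 / 2 ^ k else 0)
  let D : (Fin k → Bool) × Bool × Bool → ℝ := fun a =>
    (if a.2.1 = a.2.2 then 0 else c ^ 2 / 2 ^ k)
  have hC : ∀ a ∈ S, 0 ≤ C a := by
    intro a _
    have h1 := wt_nonneg hη0 hη1 a.2.1 a.2.2
    simp only [C]
    split_ifs <;> positivity
  have hD : ∀ a ∈ S, 0 ≤ D a := by
    intro a _
    simp only [D]
    split_ifs <;> positivity
  -- the leaf inequality
  have hleaf : ∀ t, ∑ a ∈ S, C a * tprob P (X' a) (Y' a) t ≤
      (∑ x, ∑ y, mu k η x y * tprob P x y t *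
        Real.logb 2 (tprob P x y t / ∑ x', ∑ y', mu k η x' y' * tprob P x' y' t)) +
      ∑ a ∈ S, D a * tprob P (X' a) (Y' a) t := by
    intro t
    simp_rw [mul_assoc (mu k η _ _)]
    rw [sum_mu k η (fun x y => tprob P x y t), sum_mu k η (fun x y => tprob P x y t *
        Real.logb 2 (tprob P x y t / _))]
    simp only [S, Fintype.sum_prod_type, X', Y', C, D]
    have hcase : (∀ i j z z', 0 < tprob P (Fin.cons i z) (Fin.cons j z') t →
        z = z' ∨ (i = false ∧ j = true)) ∨
        (∀ i j z, tprob P (Fin.cons i z) (Fin.cons j z) t = 0) := by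
      cases hs : P t with
      | stop o =>
        cases o with
        | true =>
          left
          intro i j z z' hpos
          have h := (hP (Fin.cons i z) (Fin.cons j z')).2 t true hs hpos
          simp only [Fk, Fin.tail_cons, Fin.cons_zero] at h
          have h' := h.symm
          rw [Bool.or_eq_true] at h'
          rcases h' with h1 | h1
          · exact Or.inl (of_decide_eq_true h1)
          · rw [Bool.and_eq_true, Bool.not_eq_true'] at h1
            exact Or.inr h1
        | false =>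
          right
          intro i j z
          by_contra hne
          have hpos : 0 < tprob P (Fin.cons i z) (Fin.cons j z) t :=
            lt_of_le_of_ne (tprob_nonneg _ _ _ _) (Ne.symm hne)
          have h := (hP (Fin.cons i z) (Fin.cons j z)).2 t false hs hpos
          simp only [Fk, Fin.tail_cons, Fin.cons_zero] at h
          simp at h
      | alice p => right; intro i j z; simp only [tprob, hs]
      | bob p => right; intro i j z; simp only [tprob, hs]
      | coin p => right; intro i j z; simp only [tprob, hs]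
    rcases hcase with hcase | hcase
    · obtain ⟨u, v, hu, hv, huv⟩ := tprob_factor P t
      simp only [huv] at hcase ⊢
      have key := leaf_ineq k hcardZ η hη0 hη1 hk (fun i z => u (Fin.cons i z))
        (fun j z => v (Fin.cons j z)) (fun i z => hu _) (fun j z => hv _) hcase _ rfl
      refine le_trans (le_of_eq ?_) (key.trans (le_of_eq ?_))
      · rw [Finset.mul_sum, Finset.mul_sum, ← Finset.sum_add_distrib]
        refine Finset.sum_congr rfl (fun z _ => ?_)
        simp only [Fintype.sum_bool, wt]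
        simp
        ring
      · congr 1
        rw [Finset.mul_sum]
        refine Finset.sum_congr rfl (fun z _ => ?_)
        simp only [Fintype.sum_bool]
        simp
        ring
    · simp only [hcase, mul_zero, zero_mul, Finset.sum_const_zero, add_zero, le_refl]
  have hle : ∑' t, ENNReal.ofReal (∑ a ∈ S, C a * tprob P (X' a) (Y' a) t) ≤
      extInfo P (mu k η) + ∑' t, ENNReal.ofReal (∑ a ∈ S, D a * tprob P (X' a) (Y' a) t) := by
    rw [extInfo, ← ENNReal.tsum_add]
    exact ENNReal.tsum_le_tsum (fun t => (ENNReal.ofReal_le_ofReal (hleaf t)).trans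
      ENNReal.ofReal_add_le)
  rw [tsum_linear hP S C hC X' Y', tsum_linear hP S D hD X' Y'] at hle
  have hSC : ∑ a ∈ S, C a = k + 2 * c ^ 2 := by
    simp only [S, Fintype.sum_prod_type, C, Fintype.sum_bool, wt, Finset.sum_const,
      Finset.card_univ, hcardZ, nsmul_eq_mul]
    simp
    field_simp
    rw [hc]
    ring
  have hSD : ∑ a ∈ S, D a = 2 * c ^ 2 := by
    simp only [S, Fintype.sum_prod_type, D, Fintype.sum_bool, Finset.sum_const,
      Finset.card_univ, hcardZ, nsmul_eq_mul]
    simp
    field_simp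
    ring
  rw [hSC, hSD, ENNReal.ofReal_add (Nat.cast_nonneg k) (by positivity),
    ENNReal.ofReal_natCast] at hle
  exact (ENNReal.add_le_add_iff_right ENNReal.ofReal_ne_top).1 hle

end Pool.Agent.N608.EI
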