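import Pool.Agent.N608.EI.Defs

/-!
# Deterministic protocol trees
-/

set_option autoImplicit false

open scoped ENNReal

namespace Pool.Agent.N608.EI

/-- Deterministic protocols of bounded length. -/
inductive DTree (X Y O : Type) : Type
  | leaf (o : O) : DTree X Y O
  | alice (f : X → Bool) (c : Bool → DTree X Y O) : DTree X Y O
  | bob (g : Y → Bool) (c : Bool → DTree X Y O) : DTree X Y O

namespace DTree

variable {X Y O : Type}

/-- output -/
def out : DTree X Y O → X → Y → O
  | leaf o, _, _ => o
  | alice f c, x, y => (c (f x)).out x y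
  | bob g c, x, y => (c (g y)).out x y

/-- number of bits -/
def len : DTree X Y O → X → Y → ℕ
  | leaf _, _, _ => 0
  | alice f c, x, y => (c (f x)).len x y + 1
  | bob g c, x, y => (c (g y)).len x y + 1

/-- transcript -/
def path : DTree X Y O → X → Y → List Bool
  | leaf _, _, _ => []
  | alice f c, x, y => f x :: (c (f x)).path x y
  | bob g c, x, y => g y :: (c (g y)).path x y

/-- the protocol of a tree -/
noncomputable def toP : DTree X Y O → Protocol X Y O
  | leaf o, _ => .stop o
  | alice f _, [] => .alice (fun x => if f x then 1 else 0)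
  | alice _ c, b :: h => (c b).toP h
  | bob g _, [] => .bob (fun y => if g y then 1 else 0)
  | bob _ c, b :: h => (c b).toP h

theorem toP_path (T : DTree X Y O) (x : X) (y : Y) : T.toP (T.path x y) = .stop (T.out x y) := by
  induction T with
  | leaf o => rfl
  | alice f c ih => exact ih (f x)
  | bob g c ih => exact ih (g y)

theorem bits_path (T : DTree X Y O) (x : X) (y : Y) : bits T.toP (T.path x y) = T.len x y := by
  induction T with
  | leaf o => rfl
  | alice f c ih =>
    have h : bits (alice f c).toP ((alice f c).path x y) =
        1 + bits (c (f x)).toP ((c (f x)).path x y) := rfl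
    rw [h, ih, len, add_comm]
  | bob g c ih =>
    have h : bits (bob g c).toP ((bob g c).path x y) =
        1 + bits (c (g y)).toP ((c (g y)).path x y) := rfl
    rw [h, ih, len, add_comm]

theorem tprob_cons (P : Protocol X Y O) (x : X) (y : Y) (b : Bool) (h : List Bool) :
    tprob P x y (b :: h) = (P []).prob x y b * tprob (fun t => P (b :: t)) x y h := by
  cases hs : P (b :: h) with
  | stop o => simp only [tprob, hs, reach]
  | alice p => simp only [tprob, hs, mul_zero]
  | bob p => simp only [tprob, hs, mul_zero]
  | coin p => simp only [tprob, hs, mul_zero]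

theorem tprob_toP [DecidableEq (List Bool)] (T : DTree X Y O) (x : X) (y : Y) (t : List Bool) :
    tprob T.toP x y t = if t = T.path x y then 1 else 0 := by
  induction T generalizing t with
  | leaf o =>
    cases t with
    | nil => simp [tprob, toP, path, reach]
    | cons b h =>
      simp only [tprob, toP, path, reach]
      simp [Step.prob]
  | alice f c ih =>
    cases t with
    | nil => simp [tprob, toP, path]
    | cons b h =>
      rw [tprob_cons]
      have h1 : (fun t => (alice f c).toP (b :: t)) = (c b).toP := rfl
      rw [h1, ih]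
      simp only [toP, Step.prob, path, List.cons.injEq]
      by_cases hb : b = f x
      · subst hb
        cases f x <;> simp
      · have : (if b = true then (((if f x = true then (1 : unitInterval) else 0) : unitInterval) : ℝ)
            else 1 - (((if f x = true then (1 : unitInterval) else 0) : unitInterval) : ℝ)) = 0 := by
          cases b <;> cases hfx : f x <;> simp_all
        rw [this, zero_mul, if_neg (fun h => hb h.1)]
  | bob g c ih =>
    cases t with
    | nil => simp [tprob, toP, path]
    | cons b h =>
      rw [tprob_cons]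
      have h1 : (fun t => (bob g c).toP (b :: t)) = (c b).toP := rfl
      rw [h1, ih]
      simp only [toP, Step.prob, path, List.cons.injEq]
      by_cases hb : b = g y
      · subst hb
        cases g y <;> simp
      · have : (if b = true then (((if g y = true then (1 : unitInterval) else 0) : unitInterval) : ℝ)
            else 1 - (((if g y = true then (1 : unitInterval) else 0) : unitInterval) : ℝ)) = 0 := by
          cases b <;> cases hgy : g y <;> simp_all
        rw [this, zero_mul, if_neg (fun h => hb h.1)]

theorem tsum_toP (T : DTree X Y O) (x : X) (y : Y) (w : List Bool → ℝ≥0∞) :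
    ∑' t, ENNReal.ofReal (tprob T.toP x y t) * w t = w (T.path x y) := by
  classical
  rw [tsum_eq_single (T.path x y)]
  · rw [tprob_toP, if_pos rfl, ENNReal.ofReal_one, one_mul]
  · intro t ht
    rw [tprob_toP, if_neg ht, ENNReal.ofReal_zero, zero_mul]

theorem zeroError_toP (T : DTree X Y O) (f : X → Y → O) (h : ∀ x y, T.out x y = f x y) :
    ZeroError T.toP f := by
  classical
  intro x y
  constructor
  · have := T.tsum_toP x y (fun _ => 1)
    simpa using this
  · intro t o ht hpos
    rw [tprob_toP] at hpos
    by_cases hp : t = T.path x y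
    · subst hp
      rw [toP_path] at ht
      have := Step.stop.inj ht
      rw [← this, h]
    · rw [if_neg hp] at hpos
      exact absurd hpos (lt_irrefl 0)

theorem expCost_toP [Fintype X] [Fintype Y] (T : DTree X Y O) (μ : X → Y → ℝ)
    (hμ : ∀ x y, 0 ≤ μ x y) :
    expCost T.toP μ = ENNReal.ofReal (∑ x, ∑ y, μ x y * T.len x y) := by
  unfold expCost
  have h1 : ∀ x y, ENNReal.ofReal (μ x y) *
      ∑' t : List Bool, ENNReal.ofReal (tprob T.toP x y t) * (bits T.toP t : ℝ≥0∞) =
      ENNReal.ofReal (μ x y * T.len x y) := by
    intro x y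
    rw [T.tsum_toP x y (fun t => (bits T.toP t : ℝ≥0∞)), bits_path,
      ENNReal.ofReal_mul (hμ x y), ENNReal.ofReal_natCast]
  simp_rw [h1]
  rw [ENNReal.ofReal_sum_of_nonneg (fun x _ => Finset.sum_nonneg
    (fun y _ => mul_nonneg (hμ x y) (Nat.cast_nonneg _)))]
  refine Finset.sum_congr rfl (fun x _ => ?_)
  rw [ENNReal.ofReal_sum_of_nonneg (fun y _ => mul_nonneg (hμ x y) (Nat.cast_nonneg _))]

theorem CC_le [Fintype X] [Fintype Y] (T : DTree X Y O) (μ : X → Y → ℝ)
    (hμ : ∀ x y, 0 ≤ μ x y) (f : X → Y → O) (h : ∀ x y, T.out x y = f x y) :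
    CC f μ ≤ ENNReal.ofReal (∑ x, ∑ y, μ x y * T.len x y) := by
  rw [← T.expCost_toP μ hμ]
  exact iInf₂_le T.toP (T.zeroError_toP f h)

/-! ## Operations on trees -/

/-- continue after the output -/
def bind {O' : Type} : DTree X Y O → (O → DTree X Y O') → DTree X Y O'
  | leaf o, k => k o
  | alice f c, k => alice f (fun b => (c b).bind k)
  | bob g c, k => bob g (fun b => (c b).bind k)

theorem out_bind {O' : Type} (T : DTree X Y O) (k : O → DTree X Y O') (x : X) (y : Y) :
    (T.bind k).out x y = (k (T.out x y)).out x y := by
  induction T with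
  | leaf o => rfl
  | alice f c ih => exact ih (f x)
  | bob g c ih => exact ih (g y)

theorem len_bind {O' : Type} (T : DTree X Y O) (k : O → DTree X Y O') (x : X) (y : Y) :
    (T.bind k).len x y = T.len x y + (k (T.out x y)).len x y := by
  induction T with
  | leaf o => simp [bind, len, out]
  | alice f c ih =>
    have := ih (f x)
    simp only [bind, len, out] at this ⊢
    omega
  | bob g c ih =>
    have := ih (g y)
    simp only [bind, len, out] at this ⊢
    omega

/-- change of inputs -/
def comap {X' Y' : Type} (u : X' → X) (v : Y' → Y) : DTree X Y O → DTree X' Y' O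
  | leaf o => leaf o
  | alice f c => alice (fun x => f (u x)) (fun b => (c b).comap u v)
  | bob g c => bob (fun y => g (v y)) (fun b => (c b).comap u v)

theorem out_comap {X' Y' : Type} (u : X' → X) (v : Y' → Y) (T : DTree X Y O) (x : X') (y : Y') :
    (T.comap u v).out x y = T.out (u x) (v y) := by
  induction T with
  | leaf o => rfl
  | alice f c ih => exact ih (f (u x))
  | bob g c ih => exact ih (g (v y))

theorem len_comap {X' Y' : Type} (u : X' → X) (v : Y' → Y) (T : DTree X Y O) (x : X') (y : Y') :
    (T.comap u v).len x y = T.len (u x) (v y) := by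
  induction T with
  | leaf o => rfl
  | alice f c ih =>
    have := ih (f (u x))
    simp only [comap, len] at this ⊢
    omega
  | bob g c ih =>
    have := ih (g (v y))
    simp only [comap, len] at this ⊢
    omega

/-- Alice sends `n` bits. -/
def sendA : (n : ℕ) → (X → Fin n → Bool) → ((Fin n → Bool) → DTree X Y O) → DTree X Y O
  | 0, _, k => k Fin.elim0
  | n + 1, f, k => alice (fun x => f x 0)
      (fun b => sendA n (fun x i => f x i.succ) (fun g => k (Fin.cons b g)))

theorem out_sendA (n : ℕ) (f : X → Fin n → Bool) (k : (Fin n → Bool) → DTree X Y O) (x : X)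
    (y : Y) : (sendA n f k).out x y = (k (f x)).out x y := by
  induction n with
  | zero =>
    simp only [sendA]
    rw [Subsingleton.elim (Fin.elim0 : Fin 0 → Bool) (f x)]
  | succ n ih =>
    simp only [sendA, out]
    rw [ih]
    congr 2
    exact Fin.cons_self_tail (f x)

theorem len_sendA (n : ℕ) (f : X → Fin n → Bool) (k : (Fin n → Bool) → DTree X Y O) (x : X)
    (y : Y) : (sendA n f k).len x y = n + (k (f x)).len x y := by
  induction n with
  | zero =>
    simp only [sendA]
    rw [Subsingleton.elim (Fin.elim0 : Fin 0 → Bool) (f x), zero_add]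
  | succ n ih =>
    simp only [sendA, len]
    rw [ih]
    have : (Fin.cons (f x 0) (fun i => f x i.succ) : Fin (n + 1) → Bool) = f x :=
      Fin.cons_self_tail (f x)
    rw [this]
    omega

/-- Bob sends `n` bits. -/
def sendB : (n : ℕ) → (Y → Fin n → Bool) → ((Fin n → Bool) → DTree X Y O) → DTree X Y O
  | 0, _, k => k Fin.elim0
  | n + 1, f, k => bob (fun y => f y 0)
      (fun b => sendB n (fun y i => f y i.succ) (fun g => k (Fin.cons b g)))

theorem out_sendB (n : ℕ) (f : Y → Fin n → Bool) (k : (Fin n → Bool) → DTree X Y O) (x : X)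
    (y : Y) : (sendB n f k).out x y = (k (f y)).out x y := by
  induction n with
  | zero =>
    simp only [sendB]
    rw [Subsingleton.elim (Fin.elim0 : Fin 0 → Bool) (f y)]
  | succ n ih =>
    simp only [sendB, out]
    rw [ih]
    congr 2
    exact Fin.cons_self_tail (f y)

theorem len_sendB (n : ℕ) (f : Y → Fin n → Bool) (k : (Fin n → Bool) → DTree X Y O) (x : X)
    (y : Y) : (sendB n f k).len x y = n + (k (f y)).len x y := by
  induction n with
  | zero =>
    simp only [sendB]
    rw [Subsingleton.elim (Fin.elim0 : Fin 0 → Bool) (f y), zero_add]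
  | succ n ih =>
    simp only [sendB, len]
    rw [ih]
    have : (Fin.cons (f y 0) (fun i => f y i.succ) : Fin (n + 1) → Bool) = f y :=
      Fin.cons_self_tail (f y)
    rw [this]
    omega

/-- Alice sends the bits indexed by a finite type. -/
noncomputable def sendAF {ι : Type} [Fintype ι] (f : X → ι → Bool)
    (k : (ι → Bool) → DTree X Y O) : DTree X Y O :=
  sendA (Fintype.card ι) (fun x i => f x ((Fintype.equivFin ι).symm i))
    (fun g => k (fun i => g (Fintype.equivFin ι i)))

theorem out_sendAF {ι : Type} [Fintype ι] (f : X → ι → Bool)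
    (k : (ι → Bool) → DTree X Y O) (x : X) (y : Y) :
    (sendAF f k).out x y = (k (f x)).out x y := by
  simp only [sendAF, out_sendA, Equiv.symm_apply_apply]

theorem len_sendAF {ι : Type} [Fintype ι] (f : X → ι → Bool)
    (k : (ι → Bool) → DTree X Y O) (x : X) (y : Y) :
    (sendAF f k).len x y = Fintype.card ι + (k (f x)).len x y := by
  simp only [sendAF, len_sendA, Equiv.symm_apply_apply]

/-- Bob sends the bits indexed by a finite type. -/
noncomputable def sendBF {ι : Type} [Fintype ι] (f : Y → ι → Bool)
    (k : (ι → Bool) → DTree X Y O) : DTree X Y O :=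
  sendB (Fintype.card ι) (fun x i => f x ((Fintype.equivFin ι).symm i))
    (fun g => k (fun i => g (Fintype.equivFin ι i)))

theorem out_sendBF {ι : Type} [Fintype ι] (f : Y → ι → Bool)
    (k : (ι → Bool) → DTree X Y O) (x : X) (y : Y) :
    (sendBF f k).out x y = (k (f y)).out x y := by
  simp only [sendBF, out_sendB, Equiv.symm_apply_apply]

theorem len_sendBF {ι : Type} [Fintype ι] (f : Y → ι → Bool)
    (k : (ι → Bool) → DTree X Y O) (x : X) (y : Y) :
    (sendBF f k).len x y = Fintype.card ι + (k (f y)).len x y := by
  simp only [sendBF, len_sendB, Equiv.symm_apply_apply]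

end DTree

end Pool.Agent.N608.EI
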