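import Pool.Agent.N608.EI.Tree
import Pool.Agent.N608.EI.LowerMain

/-!
# Cheap zero-error protocols for many coordinates
-/

set_option autoImplicit false

open scoped ENNReal

namespace Pool.Agent.N608.EI

section general

variable {X Y O : Type} [Fintype X] [Fintype Y]

theorem sum_prod_fun (n : ℕ) (φ : Fin n → X → Y → ℝ) :
    ∑ x : Fin n → X, ∑ y : Fin n → Y, ∏ i, φ i (x i) (y i) = ∏ i, ∑ a, ∑ b, φ i a b := by
  classical
  have h1 : ∀ x : Fin n → X, ∑ y : Fin n → Y, ∏ i, φ i (x i) (y i) =
      ∏ i, ∑ b, φ i (x i) b := by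
    intro x
    rw [Finset.prod_univ_sum, Fintype.piFinset_univ]
  simp_rw [h1]
  rw [Finset.prod_univ_sum, Fintype.piFinset_univ]

theorem powDist_sum (μ : X → Y → ℝ) (hμ : ∑ a, ∑ b, μ a b = 1) (n : ℕ) :
    ∑ x, ∑ y, powDist μ n x y = 1 := by
  unfold powDist
  rw [sum_prod_fun n (fun _ => μ), Finset.prod_eq_one (fun _ _ => hμ)]

theorem powDist_nonneg {μ : X → Y → ℝ} (hμ : ∀ a b, 0 ≤ μ a b) (n : ℕ) (x : Fin n → X)
    (y : Fin n → Y) : 0 ≤ powDist μ n x y :=
  Finset.prod_nonneg (fun _ _ => hμ _ _)

/-- There is a deterministic protocol for `f^n` with expected cost at most `c`. -/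
def Good (f : X → Y → O) (μ : X → Y → ℝ) (n : ℕ) (c : ℝ) : Prop :=
  ∃ T : DTree (Fin n → X) (Fin n → Y) (Fin n → O), (∀ x y, T.out x y = powFun f n x y) ∧
    ∑ x, ∑ y, powDist μ n x y * T.len x y ≤ c

theorem Good.mono {f : X → Y → O} {μ : X → Y → ℝ} {n : ℕ} {c c' : ℝ} (h : Good f μ n c)
    (hc : c ≤ c') : Good f μ n c' := by
  obtain ⟨T, h1, h2⟩ := h
  exact ⟨T, h1, h2.trans hc⟩

theorem Good.CC_le {f : X → Y → O} {μ : X → Y → ℝ} (hμ : ∀ a b, 0 ≤ μ a b) {n : ℕ} {c : ℝ}
    (h : Good f μ n c) : CC (powFun f n) (powDist μ n) ≤ ENNReal.ofReal c := by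
  obtain ⟨T, h1, h2⟩ := h
  exact (T.CC_le _ (powDist_nonneg hμ n) _ h1).trans (ENNReal.ofReal_le_ofReal h2)

theorem Good.zero (f : X → Y → O) (μ : X → Y → ℝ) : Good f μ 0 0 :=
  ⟨DTree.leaf Fin.elim0, fun x y => Subsingleton.elim _ _, by simp [DTree.len]⟩

theorem sum_append (a b : ℕ) (g : (Fin (a + b) → X) → ℝ) :
    ∑ x, g x = ∑ x1 : Fin a → X, ∑ x2 : Fin b → X, g (Fin.append x1 x2) := by
  rw [← (Fin.appendEquiv (α := X) a b).sum_comp, Fintype.sum_prod_type]
  rfl

theorem Good.add {f : X → Y → O} {μ : X → Y → ℝ} (hμ : ∑ a, ∑ b, μ a b = 1) {a b : ℕ}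
    {c1 c2 : ℝ} (h1 : Good f μ a c1) (h2 : Good f μ b c2) : Good f μ (a + b) (c1 + c2) := by
  obtain ⟨T1, h1, k1⟩ := h1
  obtain ⟨T2, h2, k2⟩ := h2
  refine ⟨(T1.comap (fun x i => x (Fin.castAdd b i)) (fun y i => y (Fin.castAdd b i))).bind
    (fun o1 => (T2.comap (fun x i => x (Fin.natAdd a i)) (fun y i => y (Fin.natAdd a i))).bind
      (fun o2 => DTree.leaf (Fin.append o1 o2))), ?_, ?_⟩
  · intro x y
    rw [DTree.out_bind, DTree.out_bind, DTree.out_comap, DTree.out_comap, h1, h2]
    simp only [DTree.out]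
    funext i
    refine Fin.addCases (fun j => ?_) (fun j => ?_) i
    · rw [Fin.append_left]; rfl
    · rw [Fin.append_right]; rfl
  · have hlen : ∀ (x1 : Fin a → X) (x2 : Fin b → X) (y1 : Fin a → Y) (y2 : Fin b → Y),
        powDist μ (a + b) (Fin.append x1 x2) (Fin.append y1 y2) *
          (((T1.comap (fun x i => x (Fin.castAdd b i)) (fun y i => y (Fin.castAdd b i))).bind
            (fun o1 => (T2.comap (fun x i => x (Fin.natAdd a i))
              (fun y i => y (Fin.natAdd a i))).bind
              (fun o2 => DTree.leaf (Fin.append o1 o2)))).len (Fin.append x1 x2)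
                (Fin.append y1 y2) : ℝ) =
        powDist μ a x1 y1 * T1.len x1 y1 * powDist μ b x2 y2 +
          powDist μ a x1 y1 * (powDist μ b x2 y2 * T2.len x2 y2) := by
      intro x1 x2 y1 y2
      have e1 : powDist μ (a + b) (Fin.append x1 x2) (Fin.append y1 y2) =
          powDist μ a x1 y1 * powDist μ b x2 y2 := by
        unfold powDist
        rw [Fin.prod_univ_add]
        simp only [Fin.append_left, Fin.append_right]
      rw [DTree.len_bind, DTree.len_bind, DTree.len_comap, DTree.len_comap, e1]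
      simp only [DTree.len, Fin.append_left, Fin.append_right, add_zero]
      push_cast
      ring
    rw [sum_append]
    simp_rw [sum_append (X := Y) a b]
    simp_rw [hlen]
    have hsw : ∀ g : (Fin a → X) → (Fin b → X) → (Fin a → Y) → (Fin b → Y) → ℝ,
        ∑ x1, ∑ x2, ∑ y1, ∑ y2, g x1 x2 y1 y2 = ∑ x1, ∑ y1, ∑ x2, ∑ y2, g x1 x2 y1 y2 :=
      fun g => Finset.sum_congr rfl (fun x1 _ => Finset.sum_comm)
    rw [hsw]
    simp only [Finset.sum_add_distrib, ← Finset.mul_sum]
    rw [powDist_sum μ hμ b]
    simp only [mul_one]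
    have e2 : ∑ x1, ∑ y1, powDist μ a x1 y1 * ∑ x2, ∑ y2, powDist μ b x2 y2 * (T2.len x2 y2 : ℝ) =
        ∑ x2, ∑ y2, powDist μ b x2 y2 * (T2.len x2 y2 : ℝ) := by
      simp only [← Finset.sum_mul]
      rw [powDist_sum μ hμ a, one_mul]
    rw [e2]
    linarith

theorem Good.mul {f : X → Y → O} {μ : X → Y → ℝ} (hμ : ∑ a, ∑ b, μ a b = 1) {a : ℕ}
    {c : ℝ} (h : Good f μ a c) (m : ℕ) : Good f μ (a * m) (m * c) := by
  induction m with
  | zero =>
    have := Good.zero f μ
    simpa using this
  | succ m ih =>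
    have := ih.add hμ h
    rw [Nat.mul_succ]
    refine this.mono (le_of_eq ?_)
    push_cast
    ring

theorem Good.divMod {f : X → Y → O} {μ : X → Y → ℝ} (hμ : ∑ a, ∑ b, μ a b = 1) {L : ℕ}
    {c c1 : ℝ} (hc1 : 0 ≤ c1) (hL : 0 < L) (hc : 0 ≤ c) (h : Good f μ L c) (h1 : Good f μ 1 c1)
    (n : ℕ) : Good f μ n (n * (c / L) + L * c1) := by
  have h2 := (h.mul hμ (n / L)).add hμ (h1.mul hμ (n % L))
  rw [one_mul, Nat.div_add_mod] at h2
  refine h2.mono (add_le_add ?_ ?_)
  · have h3 : ((n / L : ℕ) : ℝ) ≤ (n : ℝ) / L := Nat.cast_div_le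
    calc ((n / L : ℕ) : ℝ) * c ≤ (n : ℝ) / L * c := mul_le_mul_of_nonneg_right h3 hc
      _ = _ := by ring
  · have h3 : ((n % L : ℕ) : ℝ) ≤ L := by exact_mod_cast (Nat.mod_lt n hL).le
    exact mul_le_mul_of_nonneg_right h3 hc1

end general

/-! ## The block protocol -/

section block

variable (k L : ℕ)

/-- The parity of the first bits. -/
def par {k L : ℕ} (x : Fin L → Fin (k + 1) → Bool) : Bool :=
  decide (Odd (Finset.univ.filter (fun i => x i 0 = true)).card)

/-- The last part of the block protocol: the coordinates in `C` are already certified. -/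
noncomputable def finish (C : Fin L → Bool) :
    DTree (Fin L → Fin (k + 1) → Bool) (Fin L → Fin (k + 1) → Bool) (Fin L → Bool) :=
  DTree.sendAF (ι := {i // C i = false} × Fin k) (fun x p => x p.1 p.2.succ)
    (fun v => DTree.bob (fun y => decide (∀ p, v p = y p.1 p.2.succ))
      (fun e => if e then DTree.leaf (fun _ => true) else
        DTree.sendAF (ι := Fin L) (fun x i => x i 0)
          (fun s => DTree.sendBF (ι := Fin L × Fin (k + 1)) (fun y p => y p.1 p.2)
            (fun w => DTree.leaf (fun i => if h : C i = false then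
              Fk k (Fin.cons (s i) (fun j => v (⟨i, h⟩, j))) (fun j => w (i, j)) else true)))))

theorem finish_out (C : Fin L → Bool) (x y : Fin L → Fin (k + 1) → Bool)
    (hC : ∀ i, C i = true → x i 0 = false ∧ y i 0 = true) :
    (finish k L C).out x y = powFun (Fk k) L x y := by
  classical
  have htrue : ∀ i, C i = true → Fk k (x i) (y i) = true := by
    intro i hi
    obtain ⟨h1, h2⟩ := hC i hi
    simp [Fk, h1, h2]
  rw [finish, DTree.out_sendAF]
  simp only [DTree.out]
  by_cases he : ∀ p : {i // C i = false} × Fin k, x p.1 p.2.succ = y p.1 p.2.succ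
  · rw [if_pos (decide_eq_true he)]
    simp only [DTree.out]
    funext i
    simp only [powFun]
    by_cases hi : C i = true
    · rw [htrue i hi]
    · have hi' : C i = false := by simpa using hi
      have : Fin.tail (x i) = Fin.tail (y i) := by
        funext j
        exact he (⟨i, hi'⟩, j)
      simp [Fk, this]
  · rw [if_neg (by simpa using he), DTree.out_sendAF, DTree.out_sendBF]
    simp only [DTree.out]
    funext i
    by_cases hi : C i = false
    · rw [dif_pos hi]
      simp only [powFun]
      have h1 : (Fin.cons (x i 0) (fun j : Fin k => x i j.succ) : Fin (k + 1) → Bool) = x i :=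
        Fin.cons_self_tail (x i)
      rw [h1]
    · rw [dif_neg hi]
      simp only [powFun]
      rw [htrue i (by simpa using hi)]

theorem finish_len (C : Fin L → Bool) (x y : Fin L → Fin (k + 1) → Bool)
    (hxy : ∀ i, Fin.tail (x i) = Fin.tail (y i)) :
    (finish k L C).len x y = Fintype.card {i // C i = false} * k + 1 := by
  classical
  rw [finish, DTree.len_sendAF]
  simp only [DTree.len]
  have he : ∀ p : {i // C i = false} × Fin k, x p.1 p.2.succ = y p.1 p.2.succ := by
    intro p
    exact congrFun (hxy p.1) p.2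
  rw [if_pos (decide_eq_true he)]
  simp only [DTree.len]
  rw [Fintype.card_prod, Fintype.card_fin]

/-- The block protocol. -/
noncomputable def block :
    DTree (Fin L → Fin (k + 1) → Bool) (Fin L → Fin (k + 1) → Bool) (Fin L → Bool) :=
  DTree.alice par (fun a => DTree.bob (fun y => xor a (par y)) (fun c =>
    if c then
      DTree.sendAF (ι := Fin L) (fun x i => x i 0) (fun s =>
        DTree.sendBF (ι := Fin L) (fun y i => y i 0) (fun r =>
          finish k L (fun i => !s i && r i)))
    else finish k L (fun _ => false)))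

theorem block_out (x y : Fin L → Fin (k + 1) → Bool) :
    (block k L).out x y = powFun (Fk k) L x y := by
  simp only [block, DTree.out]
  split_ifs with h
  · rw [DTree.out_sendAF, DTree.out_sendBF]
    apply finish_out
    intro i hi
    simpa using hi
  · apply finish_out
    intro i hi
    exact absurd hi (by decide)

/-- Indicator of a coordinate whose first bits are `(0, 1)`. -/
noncomputable def at01 {k : ℕ} (a b : Fin (k + 1) → Bool) : ℝ := if a 0 = false ∧ b 0 = true then 1 else 0

/-- Indicator that exactly one coordinate has the first bits `(0, 1)`. -/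
noncomputable def ind {k L : ℕ} (x y : Fin L → Fin (k + 1) → Bool) : ℝ :=
  ∑ i, ∏ j, if i = j then at01 (x j) (y j) else 1 - at01 (x j) (y j)

theorem ind_eq_zero {x y : Fin L → Fin (k + 1) → Bool}
    (h : (Finset.univ.filter (fun i => x i 0 = false ∧ y i 0 = true)).card ≠ 1) :
    ind x y = 0 := by
  classical
  unfold ind
  refine Finset.sum_eq_zero (fun i _ => ?_)
  by_cases hi : x i 0 = false ∧ y i 0 = true
  · -- there is another one
    have hex : ∃ j, j ≠ i ∧ x j 0 = false ∧ y j 0 = true := by
      by_contra hcon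
      push Not at hcon
      apply h
      rw [Finset.card_eq_one]
      refine ⟨i, ?_⟩
      ext j
      simp only [Finset.mem_filter, Finset.mem_univ, true_and, Finset.mem_singleton]
      constructor
      · intro hj
        by_contra hne
        exact hcon j hne hj.1 hj.2
      · rintro rfl
        exact hi
    obtain ⟨j, hne, hj⟩ := hex
    apply Finset.prod_eq_zero (Finset.mem_univ j)
    rw [if_neg (Ne.symm hne)]
    simp [at01, hj]
  · apply Finset.prod_eq_zero (Finset.mem_univ i)
    rw [if_pos rfl]
    simp only [at01]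
    rw [if_neg hi]

theorem ind_le_one (x y : Fin L → Fin (k + 1) → Bool) : ind x y ≤ 1 := by
  classical
  by_cases h : (Finset.univ.filter (fun i => x i 0 = false ∧ y i 0 = true)).card = 1
  · obtain ⟨i0, hi0⟩ := Finset.card_eq_one.1 h
    have hmem : ∀ i, (x i 0 = false ∧ y i 0 = true) ↔ i = i0 := by
      intro i
      have := Finset.ext_iff.1 hi0 i
      simpa using this
    unfold ind
    rw [Finset.sum_eq_single i0]
    · apply Finset.prod_le_one
      · intro j _
        simp only [at01]
        split_ifs <;> norm_num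
      · intro j _
        simp only [at01]
        split_ifs <;> norm_num
    · intro i _ hne
      apply Finset.prod_eq_zero (Finset.mem_univ i)
      rw [if_pos rfl]
      simp only [at01]
      rw [if_neg (fun hh => hne ((hmem i).1 hh))]
    · intro hh
      exact absurd (Finset.mem_univ _) hh
  · rw [ind_eq_zero k L h]
    exact zero_le_one

theorem block_len (hkL : 2 * L ≤ k) (x y : Fin L → Fin (k + 1) → Bool)
    (hxy : ∀ i, Fin.tail (x i) = Fin.tail (y i))
    (h10 : ∀ i, ¬ (x i 0 = true ∧ y i 0 = false)) :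
    ((block k L).len x y : ℝ) ≤ 3 + k * L - (k - 2 * L) * ind x y := by
  classical
  have hkL' : (0 : ℝ) ≤ (k : ℝ) - 2 * L := by
    have : ((2 * L : ℕ) : ℝ) ≤ k := by exact_mod_cast hkL
    push_cast at this
    linarith
  set A := Finset.univ.filter (fun i => x i 0 = true) with hA
  set B := Finset.univ.filter (fun i => y i 0 = true) with hB
  set C := Finset.univ.filter (fun i => x i 0 = false ∧ y i 0 = true) with hC
  have hBA : B.card = A.card + C.card := by
    rw [← Finset.card_union_of_disjoint]
    · congr 1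
      ext i
      simp only [hA, hB, hC, Finset.mem_filter, Finset.mem_univ, true_and, Finset.mem_union]
      have := h10 i
      cases hx : x i 0 <;> cases hy : y i 0 <;> simp_all
    · rw [Finset.disjoint_left]
      intro i hi hi'
      simp only [hA, hC, Finset.mem_filter, Finset.mem_univ, true_and] at hi hi'
      rw [hi] at hi'
      exact absurd hi'.1 (by decide)
  simp only [block, DTree.len]
  split_ifs with h
  · -- parities differ
    rw [DTree.len_sendAF, DTree.len_sendBF, finish_len k L _ x y hxy]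
    have hodd : Odd C.card := by
      simp only [par] at h
      rw [← hA, ← hB, hBA] at h
      by_contra hne
      rw [Nat.not_odd_iff_even] at hne
      have : Odd (A.card + C.card) ↔ Odd A.card := by
        rw [Nat.odd_add]
        tauto
      simp [this] at h
    have hC1 : 1 ≤ C.card := hodd.pos
    have hcard : Fintype.card {i // (fun i => !x i 0 && y i 0) i = false} + C.card = L := by
      rw [Fintype.card_subtype, hC]
      have : (Finset.univ.filter (fun i => x i 0 = false ∧ y i 0 = true)) =
          Finset.univ.filter (fun i => ¬ ((!x i 0 && y i 0) = false)) := by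
        ext i
        simp
      rw [this, Finset.card_filter_add_card_filter_not, Finset.card_univ, Fintype.card_fin]
    have hind := ind_le_one k L x y
    have h3 : ((Fintype.card {i // (fun i => !x i 0 && y i 0) i = false} : ℕ) : ℝ) ≤ L - 1 := by
      have h4 : ((Fintype.card {i // (fun i => !x i 0 && y i 0) i = false} : ℕ) : ℝ) +
          C.card = L := by exact_mod_cast hcard
      have h5 : (1 : ℝ) ≤ C.card := by exact_mod_cast hC1
      linarith
    rw [Fintype.card_fin]
    push_cast
    have h6 : ((Fintype.card {i // (fun i => !x i 0 && y i 0) i = false} : ℕ) : ℝ) * k ≤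
        (L - 1) * k := mul_le_mul_of_nonneg_right h3 (Nat.cast_nonneg k)
    have h7 : ((k : ℝ) - 2 * L) * ind x y ≤ (k - 2 * L) * 1 :=
      mul_le_mul_of_nonneg_left hind hkL'
    have h8 : ((Fintype.card {i // (!x i 0 && y i 0) = false} : ℕ) : ℝ) * k ≤
        (L - 1) * k := h6
    nlinarith
  · rw [finish_len k L _ x y hxy]
    have heven : C.card ≠ 1 := by
      intro h1
      apply h
      simp only [par]
      rw [← hA, ← hB, hBA, h1]
      have : Odd (A.card + 1) ↔ ¬ Odd A.card := by
        rw [Nat.odd_add_one]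
      by_cases ho : Odd A.card <;> simp [this, ho]
    rw [ind_eq_zero k L heven]
    have hcard : Fintype.card {i : Fin L // (fun _ : Fin L => false) i = false} = L := by
      simp
    rw [hcard]
    push_cast
    nlinarith

end block

/-! ## The expected cost of the block protocol -/

theorem mu_at01 (k : ℕ) (η : ℝ) : ∑ a, ∑ b, mu k η a b * at01 a b = η := by
  rw [sum_mu]
  simp only [at01, Fin.cons_zero, Fintype.sum_bool, wt]
  simp

theorem mu_not_at01 (k : ℕ) (η : ℝ) : ∑ a, ∑ b, mu k η a b * (1 - at01 a b) = 1 - η := by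
  simp only [mul_sub, mul_one, Finset.sum_sub_distrib]
  rw [mu_at01, mu_sum]

theorem exp_ind (k L : ℕ) (η : ℝ) :
    ∑ x, ∑ y, powDist (mu k η) L x y * ind x y = L * (η * (1 - η) ^ (L - 1)) := by
  classical
  have h1 : ∀ x y : Fin L → Fin (k + 1) → Bool, powDist (mu k η) L x y * ind x y =
      ∑ i, ∏ j, (mu k η (x j) (y j) *
        (if i = j then at01 (x j) (y j) else 1 - at01 (x j) (y j))) := by
    intro x y
    unfold powDist ind
    rw [Finset.mul_sum]
    exact Finset.sum_congr rfl (fun i _ => Finset.prod_mul_distrib.symm)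
  simp_rw [h1]
  have h2 : ∀ x : Fin L → Fin (k + 1) → Bool, ∑ y : Fin L → Fin (k + 1) → Bool,
      ∑ i, ∏ j, (mu k η (x j) (y j) *
        (if i = j then at01 (x j) (y j) else 1 - at01 (x j) (y j))) =
      ∑ i, ∑ y : Fin L → Fin (k + 1) → Bool, ∏ j, (mu k η (x j) (y j) *
        (if i = j then at01 (x j) (y j) else 1 - at01 (x j) (y j))) :=
    fun x => Finset.sum_comm
  simp_rw [h2]
  rw [Finset.sum_comm]
  have h3 : ∀ i : Fin L, ∑ x : Fin L → Fin (k + 1) → Bool, ∑ y : Fin L → Fin (k + 1) → Bool,
      ∏ j, (mu k η (x j) (y j) *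
        (if i = j then at01 (x j) (y j) else 1 - at01 (x j) (y j))) = η * (1 - η) ^ (L - 1) := by
    intro i
    rw [sum_prod_fun L (fun j a b => mu k η a b * (if i = j then at01 a b else 1 - at01 a b))]
    rw [← Finset.mul_prod_erase Finset.univ _ (Finset.mem_univ i)]
    congr 1
    · simp only [if_true]
      exact mu_at01 k η
    · rw [Finset.prod_congr rfl (g := fun _ => 1 - η)]
      · rw [Finset.prod_const, Finset.card_erase_of_mem (Finset.mem_univ i), Finset.card_univ,
          Fintype.card_fin]
      · intro j hj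
        have : i ≠ j := fun h => (Finset.mem_erase.1 hj).1 h.symm
        simp only [if_neg this]
        exact mu_not_at01 k η
  simp_rw [h3]
  rw [Finset.sum_const, Finset.card_univ, Fintype.card_fin, nsmul_eq_mul]

theorem good_block (k L : ℕ) (η : ℝ) (h0 : 0 ≤ η) (h1 : η ≤ 1) (hkL : 2 * L ≤ k) :
    Good (Fk k) (mu k η) L (3 + k * L - (k - 2 * L) * (L * (η * (1 - η) ^ (L - 1)))) := by
  refine ⟨block k L, block_out k L, ?_⟩
  have hle : ∀ x y : Fin L → Fin (k + 1) → Bool,
      powDist (mu k η) L x y * ((block k L).len x y : ℝ) ≤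
      powDist (mu k η) L x y * (3 + k * L) -
        (k - 2 * L) * (powDist (mu k η) L x y * ind x y) := by
    intro x y
    by_cases hz : powDist (mu k η) L x y = 0
    · rw [hz]; simp
    · have hne : ∀ i, mu k η (x i) (y i) ≠ 0 := by
        intro i hi
        exact hz (Finset.prod_eq_zero (Finset.mem_univ i) hi)
      have hxy : ∀ i, Fin.tail (x i) = Fin.tail (y i) := by
        intro i
        by_contra hcon
        apply hne i
        simp [mu, hcon]
      have h10 : ∀ i, ¬ (x i 0 = true ∧ y i 0 = false) := by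
        rintro i ⟨ha, hb⟩
        apply hne i
        simp [mu, ha, hb, wt]
      have := mul_le_mul_of_nonneg_left (block_len k L hkL x y hxy h10)
        (powDist_nonneg (mu_nonneg (k := k) h0 h1) L x y)
      linarith
  calc ∑ x, ∑ y, powDist (mu k η) L x y * ((block k L).len x y : ℝ)
      ≤ ∑ x, ∑ y, (powDist (mu k η) L x y * (3 + k * L) -
        (k - 2 * L) * (powDist (mu k η) L x y * ind x y)) :=
        Finset.sum_le_sum (fun x _ => Finset.sum_le_sum (fun y _ => hle x y))
    _ = _ := by
        simp only [Finset.sum_sub_distrib, ← Finset.sum_mul, ← Finset.mul_sum]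
        rw [powDist_sum _ (mu_sum k η), exp_ind, one_mul]

theorem good_one (k : ℕ) (η : ℝ) : ∃ c, 0 ≤ c ∧ Good (Fk k) (mu k η) 1 c := by
  classical
  let T : DTree (Fin 1 → Fin (k + 1) → Bool) (Fin 1 → Fin (k + 1) → Bool) (Fin 1 → Bool) :=
    DTree.sendAF (ι := Fin 1 × Fin (k + 1)) (fun x p => x p.1 p.2) (fun s =>
      DTree.sendBF (ι := Fin 1 × Fin (k + 1)) (fun y p => y p.1 p.2) (fun r =>
        DTree.leaf (fun i => Fk k (fun j => s (i, j)) (fun j => r (i, j)))))
  refine ⟨max 0 (∑ x, ∑ y, powDist (mu k η) 1 x y * T.len x y), le_max_left _ _,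
    T, ?_, le_max_right _ _⟩
  intro x y
  simp only [T]
  rw [DTree.out_sendAF, DTree.out_sendBF]
  rfl

end Pool.Agent.N608.EI
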